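import Pool.Agent.Q9.ZF.Win
import Pool.Agent.H986R2.K4.Ch
import Pool.Agent.H986R2.K4.Fwd
import Pool.Agent.H986R2.K4.NL
import Pool.Agent.H986R2.K4.RT

/-!
# The strip which contains the zeros of the derivatives up to height `exp (κ n)`
-/

set_option autoImplicit false

namespace Pool.Agent.Q9.ZF

open Complex Filter Topology MeasureTheory Set
open Pool.Agent.H24R2.JP (XX HH Om)
open Pool.Agent.H24R2.DZ (bad hc SCir SStrip SLowX)
open Pool.Agent.H986R2.K4 (ZB)

/-- all zeros of the `n`-th derivative up to height `exp (κ n)` are at distance at most `a` from the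
critical line -/
def Strip (κ a : ℝ) : Prop := ∃ N : ℕ, ∀ n : ℕ, N ≤ n → ∀ s : ℂ, iteratedDeriv n XX s = 0 →
  |s.im| ≤ Real.exp (κ * n) → |s.re| ≤ a

/-- the same in a window -/
def NoFar (r0 a : ℝ) : Prop := ∃ T0 : ℝ, 2 ≤ T0 ∧ ∀ (t : ℝ) (n : ℕ), T0 ≤ t →
  r0 * Om t ≤ n → (n : ℝ) ≤ 2 * r0 * Om t → ∀ s : ℂ, s.im = t → iteratedDeriv n XX s = 0 → |s.re| ≤ a

theorem noFar {y r0 a : ℝ} (hy0 : 0 ≤ y) (hy1 : y ≤ 1 / 2) (hZ : ZB y) (hr0 : 0 < r0)
    (ha : 0 < a) (har : y - r0 < a) : NoFar r0 a := by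
  obtain ⟨δ, hδ⟩ : ∃ δ : ℝ, δ = min (min a (1 / 2)) ((a + r0 - y) / 2) := ⟨_, rfl⟩
  have hδ0 : 0 < δ := by
    rw [hδ]; exact lt_min (lt_min ha (by norm_num)) (by linarith)
  have hδ1 : δ ≤ a := by rw [hδ]; exact (min_le_left _ _).trans (min_le_left _ _)
  have hδ2 : δ ≤ 1 / 2 := by rw [hδ]; exact (min_le_left _ _).trans (min_le_right _ _)
  have hδ3 : δ ≤ (a + r0 - y) / 2 := by rw [hδ]; exact min_le_right _ _
  obtain ⟨R, hR⟩ : ∃ R : ℝ, R = 1 + 2 * r0 := ⟨_, rfl⟩
  have hR1 : 1 ≤ R := by rw [hR]; linarith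
  obtain ⟨ε, hε0, L0, hL0, H⟩ := narrow hr0 (by linarith : r0 ≤ 2 * r0) hδ0 (by linarith : 0 < R)
  obtain ⟨T0, hT0, hC⟩ := ctlXX hy0 hZ hδ0 (by linarith) hε0 hR1
  refine ⟨max T0 (Real.exp (2 * L0)), hT0.trans (le_max_left _ _), ?_⟩
  intro t n ht hn1 hn2 s hs hs0
  by_contra hcon
  push Not at hcon
  have htT : T0 ≤ t := (le_max_left _ _).trans ht
  have ht0 : 0 < t := by linarith
  have hL : L0 ≤ Om t := by
    have h1 : Real.exp (2 * L0) ≤ t := (le_max_right _ _).trans ht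
    have h2 := (Real.le_log_iff_exp_le ht0).2 h1
    unfold Om; linarith
  have hOm : 0 < Om t := by linarith
  have hG := hC t htT
  have hst := Pool.Agent.H24R2.DZ.strip n s hs0
  have hr : r0 ≤ n / Om t := by rw [le_div_iff₀ hOm]; exact hn1
  have key : ∀ x : ℝ, a < x → x ≤ 1 / 2 → iteratedDeriv n (fun z : ℂ => XX (I * t + z)) x ≠ 0 := by
    intro x hx1 hx2
    exact H (Om t) (y + δ) n _ hL hn1 hn2 (by linarith) hG x (by linarith) (by linarith)
      (by rw [hR]; linarith)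
  have hder : iteratedDeriv n (fun z : ℂ => XX (I * t + z)) (s.re : ℂ) = 0 := by
    rw [congrFun (iteratedDeriv_comp_const_add n XX (I * t)) (s.re : ℂ)]
    have : I * (t : ℂ) + (s.re : ℂ) = s := by
      rw [← hs]
      apply Complex.ext <;> simp
    rw [this]; exact hs0
  rcases le_total 0 s.re with h | h
  · rw [abs_of_nonneg h] at hcon hst
    exact key _ hcon hst hder
  · rw [abs_of_nonpos h] at hcon hst
    apply key _ hcon hst
    have h1 := (Pool.Agent.H986R2.K4.AWAux.symm_iter hG.diff hG.symm n).2 (s.re : ℂ)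
    rw [Complex.conj_ofReal, hder, map_zero, mul_zero] at h1
    rw [Complex.ofReal_neg]
    exact h1

theorem desc (hc : SCir) (hs : SStrip) (m : ℕ) : ∀ (k : ℕ) (s : ℂ), bad (m + k) s →
    ∃ z : ℂ, bad m z ∧ |s.im - z.im| ≤ k / 2 ∧ |s.re| ≤ |z.re| := by
  intro k
  induction k with
  | zero => intro s h; exact ⟨s, h, by simp, le_rfl⟩
  | succ k ih =>
    intro s h
    obtain ⟨z1, h1, h2, h3⟩ := hc (m + k) s h
    obtain ⟨z, h4, h5, h7⟩ := ih z1 h1
    refine ⟨z, h4, ?_, h2.trans h7⟩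
    have h6 := hs (m + k) z1 h1.1
    have : |s.im - z.im| ≤ |s.im - z1.im| + |z1.im - z.im| := abs_sub_le _ _ _
    push_cast
    linarith

theorem chain {r0 κ a : ℝ} (hr0 : 0 < r0) (hr1 : r0 ≤ 1) (ha : 0 < a) (hNF : NoFar r0 a)
    (hκ : κ * r0 < 2) : Strip κ a := by
  obtain ⟨N0, hN0⟩ := Pool.Agent.H24R2.DZ.lowX
  obtain ⟨T0, hT0, hNB⟩ := hNF
  have hbad : ∀ (n : ℕ) (s : ℂ), iteratedDeriv n XX s = 0 → a < |s.re| → bad n s := by
    intro n s h1 h2
    refine ⟨h1, Or.inl ?_⟩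
    intro h3
    rw [h3, abs_zero] at h2
    linarith
  by_cases hk0 : κ ≤ 1 / 25
  · refine ⟨N0, fun n hn s h0 hs => ?_⟩
    by_contra hcon
    push Not at hcon
    refine hN0 n hn s (hs.trans ?_) (hbad n s h0 hcon)
    apply Real.exp_le_exp.2
    have : (0 : ℝ) ≤ n := Nat.cast_nonneg n
    nlinarith
  push Not at hk0
  set p : ℝ := r0 * κ / 2 with hp
  have hp0 : 0 < p := by positivity
  have hp1 : p < 1 := by rw [hp]; linarith
  set δ : ℝ := (1 - p) / 2 with hδ
  have hδ0 : 0 < δ := by rw [hδ]; linarith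
  have hδ1 : δ ≤ 1 / 2 := by rw [hδ]; linarith
  have hδp : (1 + δ) * p < 1 := by
    rw [hδ]
    nlinarith
  refine ⟨max N0 (max 1250 (max ⌈2 * T0⌉₊ (max ⌈25 / δ⌉₊ ⌈100 + 100 / r0⌉₊))), ?_⟩
  intro n hn
  have hn0 : N0 ≤ n := le_trans (le_max_left _ _) hn
  have hn' := le_trans (le_max_right _ _) hn
  have hn1 : 1250 ≤ n := le_trans (le_max_left _ _) hn'
  have hn'' := le_trans (le_max_right _ _) hn'
  have hn2 : ⌈2 * T0⌉₊ ≤ n := le_trans (le_max_left _ _) hn''
  have hn''' := le_trans (le_max_right _ _) hn''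
  have hn3 : ⌈25 / δ⌉₊ ≤ n := le_trans (le_max_left _ _) hn'''
  have hn4 : ⌈100 + 100 / r0⌉₊ ≤ n := le_trans (le_max_right _ _) hn'''
  have hn1' : (1250 : ℝ) ≤ n := by exact_mod_cast hn1
  have hn2' : 2 * T0 ≤ n := Nat.ceil_le.1 hn2
  have hn3' : 25 / δ ≤ n := Nat.ceil_le.1 hn3
  have hn4' : 100 + 100 / r0 ≤ n := Nat.ceil_le.1 hn4
  clear hn hn' hn'' hn''' hn1 hn2 hn3 hn4
  have hexp : (n : ℝ) ≤ Real.exp (n / 25) := by
    have h1 := Real.quadratic_le_exp_of_nonneg (x := (n : ℝ) / 25) (by positivity)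
    nlinarith
  have key : ∀ s : ℂ, 0 ≤ s.im → s.im ≤ Real.exp (κ * n) → iteratedDeriv n XX s = 0 → |s.re| ≤ a := by
    intro s hs0 hs1 hz0
    by_contra hcon
    push Not at hcon
    have hb := hbad n s hz0 hcon
    by_cases hlo : s.im ≤ Real.exp (n / 25)
    · exact hN0 n hn0 s (by rw [abs_of_nonneg hs0]; exact hlo) hb
    push Not at hlo
    set t := s.im with ht
    have htn : (n : ℝ) ≤ t := hexp.trans hlo.le
    have ht0 : 0 < t := by linarith
    have hO1 : (n : ℝ) / 50 < Om t := by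
      unfold Om
      have := (Real.lt_log_iff_exp_lt ht0).2 hlo
      linarith
    have hO2 : Om t ≤ κ * n / 2 := by
      unfold Om
      have := (Real.log_le_iff_le_exp ht0).2 hs1
      linarith
    set x : ℝ := (1 + δ) * r0 * Om t with hx
    have hO0 : 0 < Om t := by linarith
    have hx0 : 0 < x := by positivity
    have hxn : x ≤ n := by
      have h1 : x ≤ (1 + δ) * r0 * (κ * n / 2) := by
        rw [hx]
        apply mul_le_mul_of_nonneg_left hO2
        positivity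
      have h2 : (1 + δ) * r0 * (κ * n / 2) = ((1 + δ) * p) * n := by rw [hp]; ring
      rw [h2] at h1
      nlinarith
    have hmn : ⌈x⌉₊ ≤ n := Nat.ceil_le.2 hxn
    set m := ⌈x⌉₊ with hm
    have hm1 : x ≤ m := Nat.le_ceil x
    have hm2 : (m : ℝ) < x + 1 := Nat.ceil_lt_add_one hx0.le
    obtain ⟨k, hk⟩ := Nat.exists_eq_add_of_le hmn
    rw [hk] at hb
    obtain ⟨z, hz, hzi, hzr⟩ := desc (Pool.Agent.H24R2.DZ.cir Pool.Agent.H24R2.DZ.strip)
      Pool.Agent.H24R2.DZ.strip m k s hb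
    have hkn : (k : ℝ) ≤ n := by
      have : k ≤ n := by omega
      exact_mod_cast this
    have hz2 := abs_le.1 hzi
    have hz3 : t / 2 ≤ z.im := by linarith
    have hz4 : z.im ≤ 2 * t := by linarith
    have hz0 : 0 < z.im := by linarith
    have hlog2 : Real.log 2 ≤ 1 := by
      have := Real.log_two_lt_d9
      linarith
    have hOz1 : Om z.im ≤ Om t + 1 / 2 := by
      unfold Om
      have h1 := Real.log_le_log hz0 hz4
      rw [Real.log_mul (by norm_num) ht0.ne'] at h1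
      linarith
    have hOz2 : Om t - 1 / 2 ≤ Om z.im := by
      unfold Om
      have h1 := Real.log_le_log (by positivity) hz3
      rw [Real.log_div ht0.ne' (by norm_num)] at h1
      linarith
    have hT : T0 ≤ z.im := by linarith
    have hfin := hNB z.im m hT ?_ ?_ z rfl hz.1
    · linarith
    · -- lower bound
      have h1 : 25 ≤ n * δ := by
        rw [div_le_iff₀ hδ0] at hn3'
        exact hn3'
      have h2 : Om z.im ≤ (1 + δ) * Om t := by nlinarith
      calc r0 * Om z.im ≤ r0 * ((1 + δ) * Om t) := mul_le_mul_of_nonneg_left h2 hr0.le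
        _ = x := by rw [hx]; ring
        _ ≤ m := hm1
    · -- upper bound
      have h1 : 100 * r0 + 100 ≤ n * r0 := by
        have h2 := mul_le_mul_of_nonneg_right hn4' hr0.le
        have h3 : (100 + 100 / r0) * r0 = 100 * r0 + 100 := by field_simp
        linarith
      have h4 : 2 * r0 + 2 ≤ r0 * Om t := by nlinarith
      have h5 : x ≤ 3 / 2 * (r0 * Om t) := by
        rw [hx]
        have : 0 < r0 * Om t := by positivity
        nlinarith
      have h6 : r0 * (Om t - 1 / 2) ≤ r0 * Om z.im := mul_le_mul_of_nonneg_left hOz2 hr0.le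
      nlinarith
  intro s hz0 hs
  rcases le_total 0 s.im with h0 | h0
  · rw [abs_of_nonneg h0] at hs
    exact key s h0 hs hz0
  · rw [abs_of_nonpos h0] at hs
    have h1 := key ((starRingEnd ℂ) s) (by rw [Complex.conj_im]; linarith)
      (by rw [Complex.conj_im]; exact hs)
      (by rw [Pool.Agent.H24R2.JP.B1h.iter_conj XX Pool.Agent.H24R2.JP.B1h.XX_conj n s, hz0, map_zero])
    rwa [Complex.conj_re] at h1

/-- The forward theorem. -/
theorem strip_of {y κ a : ℝ} (hy0 : 0 ≤ y) (hy1 : y ≤ 1 / 2) (hZ : ZB y) (hκ : 0 < κ)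
    (ha : 0 < a) (hya : y - 2 / κ < a) : Strip κ a := by
  obtain ⟨c, hc⟩ : ∃ c : ℝ, c = min 1 (2 / κ) := ⟨_, rfl⟩
  have hκ2 : 0 < 2 / κ := by positivity
  have hc0 : 0 < c := by rw [hc]; exact lt_min one_pos hκ2
  have hc1 : c ≤ 1 := by rw [hc]; exact min_le_left _ _
  have hc2 : c ≤ 2 / κ := by rw [hc]; exact min_le_right _ _
  have hyc : y - c < a := by
    rw [hc]
    rcases le_total 1 (2 / κ) with h | h
    · rw [min_eq_left h]; linarith
    · rw [min_eq_right h]; exact hya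
  obtain ⟨r0, hr0, hr1, hr2⟩ : ∃ r0 : ℝ, 0 < r0 ∧ r0 < c ∧ y - r0 < a := by
    refine ⟨(max 0 (y - a) + c) / 2, ?_, ?_, ?_⟩
    · have := le_max_left 0 (y - a)
      linarith
    · have : max 0 (y - a) < c := max_lt hc0 (by linarith)
      linarith
    · have h1 := le_max_right 0 (y - a)
      linarith
  refine chain hr0 (by linarith) ha (noFar hy0 hy1 hZ hr0 ha hr2) ?_
  have h1 : r0 < 2 / κ := by linarith
  rw [lt_div_iff₀ hκ] at h1
  linarith

end Pool.Agent.Q9.ZF
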