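import Pool.Agent.Q9.ZF.Chn
import Pool.Agent.Q9.ZF.Cnv

/-!
# Strips for the zeros of the derivatives of the Riemann xi function: assembly
-/

set_option autoImplicit false

namespace Pool.Agent.Q9.ZF

open Complex Filter Topology MeasureTheory Set
open Pool.Agent.H24R2.JP (XX HH Om)
open Pool.Agent.H986R2.K4

/-- the zeros of the `n`-th derivative of xi up to height `exp (κ n)`, `n` large -/
def StripXi (κ a : ℝ) : Prop := ∃ N : ℕ, ∀ n : ℕ, N ≤ n → ∀ s : ℂ, iteratedDeriv n xi s = 0 →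
  |s.im| ≤ Real.exp (κ * n) → |s.re - 1 / 2| ≤ a

def ZeroFree (θ : ℝ) : Prop := ∀ s : ℂ, θ < s.re → riemannZeta s ≠ 0

theorem stripXi_iff (κ a : ℝ) : StripXi κ a ↔ Strip κ a := by
  constructor
  · rintro ⟨N, h⟩
    refine ⟨N, fun n hn s hs hi => ?_⟩
    have e : s + 1 / 2 - 1 / 2 = s := by ring
    have h1 := h n hn (s + 1 / 2) ((xiE.2 n (s + 1 / 2)).2 (by rw [e]; exact hs)) (by
      have : (s + 1 / 2 : ℂ).im = s.im := by simp
      rw [this]; exact hi)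
    have : (s + 1 / 2 : ℂ).re - 1 / 2 = s.re := by simp
    rwa [this] at h1
  · rintro ⟨N, h⟩
    refine ⟨N, fun n hn s hs hi => ?_⟩
    have h1 := h n hn (s - 1 / 2) ((xiE.2 n s).1 hs) (by
      have : (s - 1 / 2 : ℂ).im = s.im := by simp
      rw [this]; exact hi)
    have : (s - 1 / 2 : ℂ).re = s.re - 1 / 2 := by simp
    rwa [this] at h1

/-- forward theorem with `a ≥ 0` -/
theorem strip_all {y κ a : ℝ} (hy0 : 0 ≤ y) (hy1 : y ≤ 1 / 2) (hZ : ZB y) (hκ : 0 < κ)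
    (ha : 0 ≤ a) (hya : y - 2 / κ < a) : Strip κ a := by
  rcases ha.eq_or_lt with ha' | ha'
  · rw [← ha'] at hya ⊢
    have h1 : y < 2 / κ := by linarith
    rw [lt_div_iff₀ hκ] at h1
    obtain ⟨N, hN⟩ := fwdT y κ hy0 hy1 hZ (by linarith)
    refine ⟨N, fun n hn s hs hi => ?_⟩
    by_contra hcon
    push Not at hcon
    refine hN n hn s hi ⟨hs, Or.inl ?_⟩
    intro h
    rw [h, abs_zero] at hcon
    exact lt_irrefl _ hcon
  · exact strip_of hy0 hy1 hZ hκ ha' hya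

theorem strip_theta {θ : ℝ} (h1 : 1 / 2 ≤ θ) (h2 : ZeroFree θ) {κ a : ℝ} (hκ : 0 < κ)
    (ha : 0 ≤ a) (hya : θ - 1 / 2 - 2 / κ < a) : Strip κ a := by
  rcases lt_or_ge θ 1 with h3 | h3
  · refine strip_all (y := θ - 1 / 2) (by linarith) (by linarith) ?_ hκ ha hya
    refine a2 sab a1 (θ - 1 / 2) (by linarith) (by linarith) fun s hs => h2 s ?_
    linarith
  · exact strip_all (y := 1 / 2) (by norm_num) le_rfl a1 hκ ha (by linarith)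

theorem final :
    (∀ κ a : ℝ, 0 < κ → 0 ≤ a → 1 / 2 - 2 / κ < a → StripXi κ a) ∧
    (∀ θ : ℝ, 1 / 2 ≤ θ → ZeroFree θ → ∀ κ a : ℝ, 0 < κ → 0 ≤ a → θ - 1 / 2 - 2 / κ < a →
      StripXi κ a) ∧
    (∀ κ : ℝ, 4 < κ → ((∃ a : ℝ, a < 1 / 2 - 2 / κ ∧ StripXi κ a) ↔
      ∃ θ : ℝ, θ < 1 ∧ ZeroFree θ)) := by
  refine ⟨fun κ a hκ ha h => (stripXi_iff κ a).2 (strip_all (y := 1 / 2) (by norm_num) le_rfl a1 hκ ha h),
    fun θ h1 h2 κ a hκ ha h => (stripXi_iff κ a).2 (strip_theta h1 h2 hκ ha h), ?_⟩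
  intro κ hκ
  have hκ0 : 0 < κ := by linarith
  have hκ2 : 2 / κ < 1 / 2 := by
    rw [div_lt_iff₀ hκ0]; linarith
  constructor
  · rintro ⟨a, ha, hS⟩
    rw [stripXi_iff] at hS
    obtain ⟨b, hb⟩ : ∃ b : ℝ, b = max a 0 := ⟨_, rfl⟩
    have hb0 : 0 ≤ b := by rw [hb]; exact le_max_right _ _
    have hba : a ≤ b := by rw [hb]; exact le_max_left _ _
    have hb2 : b < 1 / 2 - 2 / κ := by rw [hb]; exact max_lt ha (by linarith)
    obtain ⟨N, hN⟩ := hS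
    obtain ⟨y, hy, hs⟩ := conv vdcQ v0 (pl hh) lr hh tay κ b hb0 hκ0 hb2
      ⟨N, fun n hn s hs hi => (hN n hn s hs hi).trans hba⟩
    exact ⟨1 / 2 + y, by linarith, hs⟩
  · rintro ⟨θ, hθ, h⟩
    obtain ⟨θ', h1, h2, h3⟩ : ∃ θ' : ℝ, 1 / 2 ≤ θ' ∧ θ' < 1 ∧ θ ≤ θ' :=
      ⟨max (1 / 2) θ, le_max_left _ _, max_lt (by norm_num) hθ, le_max_right _ _⟩
    have hZ : ZeroFree θ' := fun s hs => h s (by linarith)
    obtain ⟨a, ha0, ha1, ha2⟩ : ∃ a : ℝ, 0 ≤ a ∧ θ' - 1 / 2 - 2 / κ < a ∧ a < 1 / 2 - 2 / κ := by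
      obtain ⟨m, hm⟩ : ∃ m : ℝ, m = max 0 (θ' - 1 / 2 - 2 / κ) := ⟨_, rfl⟩
      have hm0 : 0 ≤ m := by rw [hm]; exact le_max_left _ _
      have hm1 : θ' - 1 / 2 - 2 / κ ≤ m := by rw [hm]; exact le_max_right _ _
      have hm2 : m < 1 / 2 - 2 / κ := by rw [hm]; exact max_lt (by linarith) (by linarith)
      exact ⟨(m + (1 / 2 - 2 / κ)) / 2, by linarith, by linarith, by linarith⟩
    exact ⟨a, ha2, (stripXi_iff κ a).2 (strip_theta h1 hZ hκ0 ha0 ha1)⟩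

end Pool.Agent.Q9.ZF
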