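import Pool.Agent.H986R2.K4.All

/-!
# Growth of the logarithmic derivative of `ξ^(n)` when its zeros near height `t` are in a strip
(after `Pool.Agent.H986R2.K4.GR`)
-/

set_option autoImplicit false

namespace Pool.Agent.Q9.ZF

open Complex Filter Topology MeasureTheory Set
open Pool.Agent.H24R2.JP (XX HH Om)
open Pool.Agent.H986R2.K4
open Pool.Agent.H986R2.K4.GRAux

theorem logDeriv_affine {G : ℂ → ℂ} {l v u : ℂ} (hu : u = 5 + l * (v - 5))
    (hG : DifferentiableAt ℂ G u) :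
    logDeriv (fun v => G (5 + l * (v - 5))) v = l * logDeriv G u := by
  have hlin : HasDerivAt (fun v : ℂ => 5 + l * (v - 5)) l v := by
    have := (((hasDerivAt_id v).sub_const 5).const_mul l).const_add 5
    simpa using this
  have h0 : HasDerivAt (G ∘ fun v : ℂ => 5 + l * (v - 5)) (deriv G u * l) v := by
    refine HasDerivAt.comp (h₂ := G) v ?_ hlin
    rw [← hu]; exact hG.hasDerivAt
  have h1 : HasDerivAt (fun v : ℂ => G (5 + l * (v - 5))) (deriv G u * l) v := h0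
  rw [logDeriv_apply, logDeriv_apply, h1.deriv, ← hu]
  ring

theorem gra (h1 : S_SAB) (h2 : S_RG) (h3 : S_UB) (h4 : S_HH) (r0 r1 η0 η a : ℝ) (hr0 : 0 < r0)
    (hr01 : r0 ≤ r1) (hr1 : r1 ≤ 1 / 2) (hη0 : 0 < η0) (hη0' : η0 ≤ 1 / 4) (hη : 0 < η)
    (ha0 : 0 ≤ a) (ha1 : a ≤ 1 / 2) :
    ∃ T0 : ℝ, 2 ≤ T0 ∧ ∀ (t : ℝ) (n : ℕ), T0 ≤ t → r0 * Om t ≤ n → (n : ℝ) ≤ r1 * Om t →
    (∀ s : ℂ, iteratedDeriv n XX s = 0 → |s.im - t| ≤ 20 → s.re ≤ a) →
    ∀ u : ℂ, a + η0 ≤ u.re → u.re ≤ 1 → |u.im| ≤ 1 →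
      iteratedDeriv n XX (I * t + u) ≠ 0 ∧
      ‖logDeriv (iteratedDeriv n XX) (I * t + u) - (Om t : ℂ)‖ ≤ η * Om t ∧
      t ^ (-η) * (Om t ^ n * ‖HH (I * t + u)‖) ≤ ‖iteratedDeriv n XX (I * t + u)‖ := by
  obtain ⟨l, hl⟩ : ∃ l : ℝ, l = 1 - a / 5 := ⟨_, rfl⟩
  have hl1 : l ≤ 1 := by rw [hl]; linarith
  have hl9 : 9 / 10 ≤ l := by rw [hl]; linarith
  have hl0 : 0 < l := by linarith
  have hla : 5 - 5 * l = a := by rw [hl]; ring
  obtain ⟨K, hK, hHH⟩ := h4
  obtain ⟨TH, hTH, hHH⟩ := hHH 15 (by norm_num)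
  obtain ⟨KU, TU, hKU, hTU, hUB⟩ := h3 r0 r1 hr0 hr01 (by linarith)
  obtain ⟨ε, hε, hS⟩ := h1 η0 (η / 8) (KU + 15 * K) hη0 hη0' (by positivity) (by positivity)
  obtain ⟨TR, hTR, hRG⟩ := h2 r0 r1 ε hr0 hr01 hr1 hε
  refine ⟨max (max TH TU) (max TR (Real.exp (max 1 (4 * K / η)))), ?_, ?_⟩
  · exact le_trans hTH (le_trans (le_max_left _ _) (le_max_left _ _))
  intro t n ht hn0 hn1 hz
  have htH : TH ≤ t := le_trans (le_trans (le_max_left _ _) (le_max_left _ _)) ht
  have htU : TU ≤ t := le_trans (le_trans (le_max_right _ _) (le_max_left _ _)) ht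
  have htR : TR ≤ t := le_trans (le_trans (le_max_left _ _) (le_max_right _ _)) ht
  have htE : Real.exp (max 1 (4 * K / η)) ≤ t :=
    le_trans (le_trans (le_max_right _ _) (le_max_right _ _)) ht
  have ht0 : 0 < t := lt_of_lt_of_le (Real.exp_pos _) htE
  have hlog : max 1 (4 * K / η) ≤ Real.log t := (Real.le_log_iff_exp_le ht0).mpr htE
  have hL1 : 1 ≤ Real.log t := le_trans (le_max_left _ _) hlog
  have hLK : 4 * K / η ≤ Real.log t := le_trans (le_max_right _ _) hlog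
  have hOm : Om t = Real.log t / 2 := rfl
  have hOm0 : 0 < Om t := by rw [hOm]; linarith
  have hKO : K ≤ η / 2 * Om t := by
    rw [div_le_iff₀ hη] at hLK
    rw [hOm]; nlinarith
  have hc : ((Om t : ℂ) ^ n) ≠ 0 := by
    apply pow_ne_zero
    exact_mod_cast hOm0.ne'
  have hcn : ‖((Om t : ℂ) ^ n)‖ = Om t ^ n := by
    rw [norm_pow, Complex.norm_real, Real.norm_of_nonneg hOm0.le]
  have hcpos : 0 < Om t ^ n := pow_pos hOm0 n
  set F : ℂ → ℂ := iteratedDeriv n XX with hF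
  set G : ℂ → ℂ := fun v => F (I * t + v) / ((Om t : ℂ) ^ n * HH (I * t + v)) with hG
  have hFd : Differentiable ℂ F := diff_iter n
  -- non-vanishing
  have hF0 : ∀ u : ℂ, a < u.re → |u.im| ≤ 10 → F (I * t + u) ≠ 0 := by
    intro u hu hu2 h0
    have := hz (I * t + u) h0 (by
      have : (I * (t : ℂ) + u).im - t = u.im := by simp
      rw [this]; linarith)
    simp at this
    linarith
  have hH0 : ∀ u : ℂ, |u.re| ≤ 10 → |u.im| ≤ 10 → DifferentiableAt ℂ HH (I * t + u) ∧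
      HH (I * t + u) ≠ 0 ∧ ‖logDeriv HH (I * t + u) - (Om t : ℂ)‖ ≤ K ∧
      Real.exp (Om t * u.re - K * 15) * ‖HH (I * t)‖ ≤ ‖HH (I * t + u)‖ := by
    intro u hu hu2
    obtain ⟨a, b, c, d, _⟩ := hHH t u htH (norm_le hu hu2)
    exact ⟨a, b, c, d⟩
  have hgn : ∀ u : ℂ, ‖G u‖ = ‖F (I * t + u)‖ / (Om t ^ n * ‖HH (I * t + u)‖) := by
    intro u
    rw [hG]; simp only
    rw [norm_div, norm_mul, hcn]
  have hGd : ∀ u : ℂ, a < u.re → u.re ≤ 10 → |u.im| ≤ 10 → DifferentiableAt ℂ G u ∧ G u ≠ 0 := by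
    intro u hu1 hu2 hu3
    have hur : |u.re| ≤ 10 := by rw [abs_of_nonneg (by linarith)]; linarith
    obtain ⟨a1, a2, a3, a4⟩ := hH0 u hur hu3
    have hd : DifferentiableAt ℂ (fun v : ℂ => I * t + v) u := differentiableAt_id.const_add _
    have b1 : DifferentiableAt ℂ (fun v : ℂ => F (I * t + v)) u :=
      DifferentiableAt.comp u hFd.differentiableAt hd
    have b2 : DifferentiableAt ℂ (fun v : ℂ => HH (I * t + v)) u :=
      DifferentiableAt.comp u a1 hd
    exact ⟨b1.div (b2.const_mul _) (mul_ne_zero hc a2), div_ne_zero (hF0 u hu1 hu3) (mul_ne_zero hc a2)⟩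
  have hre : ∀ v : ℂ, (5 + (l : ℂ) * (v - 5)).re = 5 + l * (v.re - 5) := fun v => by
    simp
  have him : ∀ v : ℂ, (5 + (l : ℂ) * (v - 5)).im = l * v.im := fun v => by
    simp
  have key := hS (Real.log t) (fun v => G (5 + (l : ℂ) * (v - 5))) hL1 ?_ ?_
  · intro u hu1 hu2 hu3
    have hur : |u.re| ≤ 10 := by rw [abs_of_nonneg (by linarith)]; linarith
    have hui : |u.im| ≤ 10 := by linarith
    obtain ⟨a1, a2, a3, a4⟩ := hH0 u hur hui
    have hFu := hF0 u (by linarith) hui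
    obtain ⟨v, hv⟩ : ∃ v : ℂ, v = 5 + (u - 5) / l := ⟨_, rfl⟩
    have hlc : (l : ℂ) ≠ 0 := by exact_mod_cast hl0.ne'
    have huv : u = 5 + (l : ℂ) * (v - 5) := by rw [hv]; field_simp; ring
    have hvr : 5 + l * (v.re - 5) = u.re := by rw [← hre, ← huv]
    have hvi : l * v.im = u.im := by rw [← him, ← huv]
    have hv1 : η0 ≤ v.re := by
      have h5 : η0 ≤ l * v.re := by linarith
      by_contra hcon
      push Not at hcon
      have h6 : l * v.re < l * η0 := by
        exact mul_lt_mul_of_pos_left hcon hl0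
      have h7 : l * η0 ≤ 1 * η0 := mul_le_mul_of_nonneg_right hl1 hη0.le
      linarith
    have hv2 : v.re ≤ 3 := by
      by_contra hcon
      push Not at hcon
      have h6 : l * (-2) < l * (v.re - 5) := mul_lt_mul_of_pos_left (by linarith) hl0
      linarith
    have hv3 : |v.im| ≤ 3 := by
      by_contra hcon
      push Not at hcon
      have h6 : |u.im| = l * |v.im| := by rw [← hvi, abs_mul, abs_of_pos hl0]
      have h7 : l * 3 < l * |v.im| := mul_lt_mul_of_pos_left hcon hl0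
      linarith
    obtain ⟨k1, k2, k3⟩ := key v hv1 hv2 hv3
    have hGu := hGd u (by linarith) (by linarith) hui
    rw [logDeriv_affine huv hGu.1, norm_mul, Complex.norm_real, Real.norm_eq_abs, abs_of_pos hl0] at k1
    simp only [← huv] at k2 k3
    refine ⟨hFu, ?_, ?_⟩
    · have e1 := logDeriv_quot (p := I * t) (u := u) hc hFd.differentiableAt hFu a1 a2
      have e2 : logDeriv F (I * t + u) - (Om t : ℂ) =
          logDeriv G u + (logDeriv HH (I * t + u) - (Om t : ℂ)) := by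
        rw [hG, e1]; ring
      rw [e2]
      have e3 : ‖logDeriv G u‖ ≤ η / 4 * Real.log t := by
        have h5 : 9 / 10 * ‖logDeriv G u‖ ≤ l * ‖logDeriv G u‖ :=
          mul_le_mul_of_nonneg_right hl9 (norm_nonneg _)
        have h6 : 0 < η * Real.log t := by positivity
        linarith
      calc _ ≤ ‖logDeriv G u‖ + ‖logDeriv HH (I * t + u) - (Om t : ℂ)‖ := norm_add_le _ _
        _ ≤ η / 4 * Real.log t + K := add_le_add e3 a3
        _ ≤ η * Om t := by rw [hOm] at hKO ⊢; linarith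
    · rw [hgn, le_div_iff₀ (by positivity)] at k2
      refine le_trans ?_ k2
      apply mul_le_mul_of_nonneg_right _ (by positivity)
      rw [Real.rpow_def_of_pos ht0]
      apply Real.exp_le_exp.mpr
      nlinarith
  · intro v hv1 hv2 hv3
    obtain ⟨u, hu⟩ : ∃ u : ℂ, u = 5 + (l : ℂ) * (v - 5) := ⟨_, rfl⟩
    have hu1 : u.re = 5 + l * (v.re - 5) := by rw [hu, hre]
    have hu2 : u.im = l * v.im := by rw [hu, him]
    have hua : a < u.re := by
      rw [hu1]
      have : 0 < l * v.re := mul_pos hl0 hv1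
      linarith
    have hub : u.re ≤ 10 := by
      rw [hu1]
      have : l * (v.re - 5) ≤ l * 5 := mul_le_mul_of_nonneg_left (by linarith) hl0.le
      linarith
    have hu3 : |u.im| ≤ 10 := by
      rw [hu2, abs_mul, abs_of_pos hl0]
      calc l * |v.im| ≤ 1 * 10 := mul_le_mul hl1 hv3 (abs_nonneg _) (by norm_num)
        _ = 10 := by norm_num
    have hur : |u.re| ≤ 10 := by rw [abs_of_nonneg (by linarith)]; linarith
    obtain ⟨a1, a2, a3, a4⟩ := hH0 u hur hu3
    obtain ⟨c1, c2⟩ := hGd u hua hub hu3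
    have hd : DifferentiableAt ℂ (fun v : ℂ => 5 + (l : ℂ) * (v - 5)) v := by fun_prop
    refine ⟨?_, ?_, ?_⟩
    · rw [hu] at c1
      exact DifferentiableAt.comp v c1 hd
    · show G (5 + (l : ℂ) * (v - 5)) ≠ 0
      rw [← hu]; exact c2
    · show ‖G (5 + (l : ℂ) * (v - 5))‖ ≤ _
      rw [← hu, hgn, div_le_iff₀ (by positivity)]
      have b1 := hUB t n htU hn0 hn1 u hur hu3
      refine le_trans b1 ?_
      have b2 : Real.exp (-(K * 15)) * ‖HH (I * t)‖ ≤ ‖HH (I * t + u)‖ := by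
        refine le_trans ?_ a4
        apply mul_le_mul_of_nonneg_right _ (norm_nonneg _)
        apply Real.exp_le_exp.mpr
        nlinarith
      have b3 : ‖HH (I * t)‖ ≤ Real.exp (K * 15) * ‖HH (I * t + u)‖ := by
        have := mul_le_mul_of_nonneg_left b2 (Real.exp_pos (K * 15)).le
        rwa [← mul_assoc, ← Real.exp_add, add_neg_cancel, Real.exp_zero, one_mul] at this
      have b4 : t ^ KU = Real.exp (KU * Real.log t) := by
        rw [Real.rpow_def_of_pos ht0, mul_comm]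
      have b5 : Real.exp (K * 15) ≤ Real.exp (15 * K * Real.log t) := by
        apply Real.exp_le_exp.mpr
        nlinarith
      calc t ^ KU * (Om t ^ n * ‖HH (I * t)‖)
          ≤ t ^ KU * (Om t ^ n * (Real.exp (K * 15) * ‖HH (I * t + u)‖)) := by gcongr
        _ ≤ t ^ KU * (Om t ^ n * (Real.exp (15 * K * Real.log t) * ‖HH (I * t + u)‖)) := by gcongr
        _ = Real.exp ((KU + 15 * K) * Real.log t) * (Om t ^ n * ‖HH (I * t + u)‖) := by
          rw [b4, add_mul, Real.exp_add]; ring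
  · intro v hv1 hv2 hv3
    obtain ⟨u, hu⟩ : ∃ u : ℂ, u = 5 + (l : ℂ) * (v - 5) := ⟨_, rfl⟩
    have hu1 : u.re = 5 + l * (v.re - 5) := by rw [hu, hre]
    have hu2 : u.im = l * v.im := by rw [hu, him]
    have hua : 3 / 2 ≤ u.re := by
      rw [hu1]
      have : l * (-(7 / 2)) ≤ l * (v.re - 5) := mul_le_mul_of_nonneg_left (by linarith) hl0.le
      linarith
    have hub : u.re ≤ 10 := by
      rw [hu1]
      have : l * (v.re - 5) ≤ l * 5 := mul_le_mul_of_nonneg_left (by linarith) hl0.le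
      linarith
    have hu3 : |u.im| ≤ 10 := by
      rw [hu2, abs_mul, abs_of_pos hl0]
      calc l * |v.im| ≤ 1 * 10 := mul_le_mul hl1 hv3 (abs_nonneg _) (by norm_num)
        _ = 10 := by norm_num
    have hur : |u.re| ≤ 10 := by rw [abs_of_nonneg (by linarith)]; linarith
    obtain ⟨a1, a2, a3, a4⟩ := hH0 u hur hu3
    obtain ⟨c1, c2⟩ := hRG t n htR hn0 hn1 u hua hub hu3
    show _ ≤ ‖G (5 + (l : ℂ) * (v - 5))‖ ∧ ‖G (5 + (l : ℂ) * (v - 5))‖ ≤ _
    rw [← hu, hgn, le_div_iff₀ (by positivity), div_le_iff₀ (by positivity)]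
    rw [Real.rpow_def_of_pos ht0] at c1 c2
    have d1 : -(ε * Real.log t) = Real.log t * -ε := by ring
    have d2 : ε * Real.log t = Real.log t * ε := by ring
    rw [d1, d2]
    exact ⟨c1, c2⟩

end Pool.Agent.Q9.ZF
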