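import Pool.Agent.H986R2.K4.AW
import Pool.Agent.H986R2.K4.Lap
import Pool.Agent.H986R2.K4.Win

/-!
# High derivatives of a function which is controlled to the right of `b`: no zeros to the right of
`b - n / L`
-/

set_option autoImplicit false

namespace Pool.Agent.Q9.ZF

open Complex Filter Topology MeasureTheory Set
open Pool.Agent.H156R2.DZArc (growF)

/-- control of a function to the right of `b`, and its size in the strip `|Re u| ≤ b` -/
structure Ctl (G : ℂ → ℂ) (L b ε R : ℝ) : Prop where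
  diff : Differentiable ℂ G
  symm : ∀ z : ℂ, G (-((starRingEnd ℂ) z)) = (starRingEnd ℂ) (G z)
  far : ∀ u : ℂ, b ≤ u.re → ‖u‖ ≤ R → G u ≠ 0 ∧ ‖logDeriv G u - L‖ ≤ ε * L
  near : ∀ u : ℂ, |u.re| ≤ b → ‖u‖ ≤ R → ‖G u‖ ≤ ‖G b‖ * Real.exp (ε * L)

theorem scale_logDeriv {G : ℂ → ℂ} (hG : Differentiable ℂ G) (r : ℝ) (z : ℂ) :
    logDeriv (fun z : ℂ => G (0 + (r : ℂ) * z)) z = r * logDeriv G (r * z) := by
  have hlin : HasDerivAt (fun z : ℂ => 0 + (r : ℂ) * z) (r : ℂ) z := by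
    have := ((hasDerivAt_id z).const_mul (r : ℂ)).const_add (0 : ℂ)
    rw [mul_one] at this
    exact this
  have h0 : HasDerivAt (G ∘ fun z : ℂ => 0 + (r : ℂ) * z) (deriv G (0 + r * z) * r) z :=
    HasDerivAt.comp (h₂ := G) z (hG (0 + r * z)).hasDerivAt hlin
  have h1 : HasDerivAt (fun z : ℂ => G (0 + (r : ℂ) * z)) (deriv G (0 + r * z) * r) z := h0
  rw [logDeriv_apply, logDeriv_apply, h1.deriv, zero_add]
  ring

theorem convex_set (b R : ℝ) : Convex ℝ ({w : ℂ | b ≤ w.re} ∩ Metric.closedBall 0 R) :=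
  (convex_halfSpace_re_ge b).inter (convex_closedBall _ _)

theorem narrow {r0 r1 δ R : ℝ} (hr0 : 0 < r0) (hr01 : r0 ≤ r1) (hδ : 0 < δ) (hR : 0 < R) :
    ∃ ε : ℝ, 0 < ε ∧ ∃ L0 : ℝ, 1 ≤ L0 ∧ ∀ (L b : ℝ) (n : ℕ) (G : ℂ → ℂ), L0 ≤ L → r0 * L ≤ n →
      (n : ℝ) ≤ r1 * L → 0 ≤ b → Ctl G L b ε R → ∀ x : ℝ, δ ≤ x → b + δ ≤ x + n / L →
      x + r1 + δ ≤ R → iteratedDeriv n G x ≠ 0 := by
  have hr1 : 0 < r1 := by linarith
  obtain ⟨ρ, hρ⟩ : ∃ ρ : ℝ, ρ = min (1 / 2) (δ / (2 * r1)) := ⟨_, rfl⟩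
  have hρ0 : 0 < ρ := by rw [hρ]; exact lt_min (by norm_num) (by positivity)
  have hρ1 : ρ ≤ 1 / 2 := by rw [hρ]; exact min_le_left _ _
  have hρ2 : r1 * ρ ≤ δ / 2 := by
    have h1 : ρ ≤ δ / (2 * r1) := by rw [hρ]; exact min_le_right _ _
    calc r1 * ρ ≤ r1 * (δ / (2 * r1)) := mul_le_mul_of_nonneg_left h1 hr1.le
      _ = δ / 2 := by field_simp
  obtain ⟨s, hs⟩ : ∃ s : ℝ, s = ρ / 5 := ⟨_, rfl⟩
  have hs0 : 0 < s := by rw [hs]; positivity
  obtain ⟨δ', hδ'⟩ : ∃ δ' : ℝ, δ' = min (s ^ 2 / 10) (δ / (2 * r1)) := ⟨_, rfl⟩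
  have hδ'0 : 0 < δ' := by rw [hδ']; exact lt_min (by positivity) (by positivity)
  have hδ'1 : δ' ≤ s ^ 2 / 10 := by rw [hδ']; exact min_le_left _ _
  have hδ'2 : δ' * r1 ≤ δ / 2 := by
    have h1 : δ' ≤ δ / (2 * r1) := by rw [hδ']; exact min_le_right _ _
    calc δ' * r1 ≤ δ / (2 * r1) * r1 := mul_le_mul_of_nonneg_right h1 hr1.le
      _ = δ / 2 := by field_simp
  obtain ⟨η0, n1, hη0, hn1, H⟩ := Pool.Agent.H986R2.K4.AWAux.core Pool.Agent.H986R2.K4.lapQ ρ δ' hρ0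
    hρ1 hδ'0
  obtain ⟨ε, hε⟩ : ∃ ε : ℝ, ε = min η0 (min (s ^ 2 * r0 / (20 * (R + 1))) (δ / (4 * (R + 1)))) := ⟨_, rfl⟩
  have hε0 : 0 < ε := by
    rw [hε]; exact lt_min hη0 (lt_min (by positivity) (by positivity))
  have hε1 : ε ≤ η0 := by rw [hε]; exact min_le_left _ _
  have hε2 : ε * (R + 1) ≤ s ^ 2 * r0 / 20 := by
    have h1 : ε ≤ s ^ 2 * r0 / (20 * (R + 1)) := by
      rw [hε]; exact (min_le_right _ _).trans (min_le_left _ _)
    calc ε * (R + 1) ≤ s ^ 2 * r0 / (20 * (R + 1)) * (R + 1) :=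
          mul_le_mul_of_nonneg_right h1 (by linarith)
      _ = s ^ 2 * r0 / 20 := by field_simp
  have hε3 : ε * (R + 1) ≤ δ / 4 := by
    have h1 : ε ≤ δ / (4 * (R + 1)) := by
      rw [hε]; exact (min_le_right _ _).trans (min_le_right _ _)
    calc ε * (R + 1) ≤ δ / (4 * (R + 1)) * (R + 1) :=
          mul_le_mul_of_nonneg_right h1 (by linarith)
      _ = δ / 4 := by field_simp
  refine ⟨ε, hε0, max 1 (n1 / r0), le_max_left _ _, ?_⟩
  intro L b n G hL hn0 hn2 hb hG x hx1 hx2 hx3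
  have hL1 : 1 ≤ L := (le_max_left _ _).trans hL
  have hL0 : 0 < L := by linarith
  have hLn : (n1 : ℝ) ≤ n := by
    have h1 : (n1 : ℝ) / r0 ≤ L := (le_max_right _ _).trans hL
    rw [div_le_iff₀ hr0] at h1
    linarith
  have hnn : n1 ≤ n := by exact_mod_cast hLn
  have hnpos : (0 : ℝ) < n := lt_of_lt_of_le (by positivity) hn0
  obtain ⟨r, hr⟩ : ∃ r : ℝ, r = n / L := ⟨_, rfl⟩
  have hrL : r * L = n := by rw [hr]; field_simp
  have hr00 : 0 < r := by rw [hr]; positivity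
  have hrr0 : r0 ≤ r := by rw [hr, le_div_iff₀ hL0]; exact hn0
  have hrr1 : r ≤ r1 := by rw [hr, div_le_iff₀ hL0]; exact hn2
  rw [← hr] at hx2
  have hrc : (r : ℂ) ≠ 0 := by exact_mod_cast hr00.ne'
  have hxr : x + r ≤ R := by linarith
  obtain ⟨p, hp⟩ : ∃ p : ℂ, p = ((x / r : ℝ) : ℂ) := ⟨_, rfl⟩
  have hrp : (r : ℂ) * p = x := by
    rw [hp]; push_cast; field_simp
  have hzero : iteratedDeriv n (fun z : ℂ => G (0 + (r : ℂ) * z)) p ≠ 0 → iteratedDeriv n G x ≠ 0 := by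
    intro h1 h2
    apply h1
    rw [Pool.Agent.H986R2.K4.WinAux.scale hG.diff 0 r n p, zero_add, hrp, h2, mul_zero]
  have hS : ∀ w ∈ ({w : ℂ | b ≤ w.re} ∩ Metric.closedBall 0 R), DifferentiableAt ℂ G w ∧ G w ≠ 0 ∧
      ‖logDeriv G w - ((L : ℝ) : ℂ)‖ ≤ ε * L := by
    intro w hw
    have hw2 : ‖w‖ ≤ R := by simpa using hw.2
    exact ⟨hG.diff w, hG.far w hw.1 hw2⟩
  have hxrc : ((x + r : ℝ) : ℂ) ∈ ({w : ℂ | b ≤ w.re} ∩ Metric.closedBall 0 R) := by
    refine ⟨?_, ?_⟩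
    · show b ≤ ((x + r : ℝ) : ℂ).re
      rw [Complex.ofReal_re]; linarith
    · rw [Metric.mem_closedBall, dist_zero_right, Complex.norm_real, Real.norm_eq_abs,
        abs_of_pos (by linarith)]
      exact hxr
  have hbc : ((b : ℝ) : ℂ) ∈ ({w : ℂ | b ≤ w.re} ∩ Metric.closedBall 0 R) := by
    refine ⟨?_, ?_⟩
    · show b ≤ ((b : ℝ) : ℂ).re
      rw [Complex.ofReal_re]
    · rw [Metric.mem_closedBall, dist_zero_right, Complex.norm_real, Real.norm_eq_abs,
        abs_of_nonneg hb]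
      linarith
  apply hzero
  refine H n p _ hnn (fun w hw => ?_) (fun w _ => ?_) (fun φ h1 h2 => ?_)
  · -- the ball
    rw [Metric.mem_ball, dist_eq_norm] at hw
    obtain ⟨u, hu⟩ : ∃ u : ℂ, u = (r : ℂ) * w := ⟨_, rfl⟩
    have hu1 : u - ((x + r : ℝ) : ℂ) = r * (w - (p + 1)) := by
      rw [hu]; push_cast; rw [← hrp]; ring
    have hu2 : ‖u - ((x + r : ℝ) : ℂ)‖ ≤ δ / 2 := by
      rw [hu1, norm_mul, Complex.norm_real, Real.norm_eq_abs, abs_of_pos hr00]
      calc r * ‖w - (p + 1)‖ ≤ r1 * ρ := mul_le_mul hrr1 hw.le (norm_nonneg _) hr1.le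
        _ ≤ δ / 2 := hρ2
    have hu3 : x + r - δ / 2 ≤ u.re := by
      have h1 := (abs_le.1 ((Complex.abs_re_le_norm (u - ((x + r : ℝ) : ℂ))).trans hu2)).1
      rw [Complex.sub_re, Complex.ofReal_re] at h1
      linarith
    have hu4 : ‖u‖ ≤ R := by
      have h1 := norm_add_le (u - ((x + r : ℝ) : ℂ)) ((x + r : ℝ) : ℂ)
      rw [sub_add_cancel, Complex.norm_real, Real.norm_eq_abs, abs_of_pos (by linarith : 0 < x + r)] at h1
      linarith
    obtain ⟨f1, f2⟩ := hG.far u (by linarith) hu4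
    refine ⟨?_, ?_, ?_⟩
    · exact (hG.diff.comp ((differentiable_id.const_mul _).const_add _)) w
    · show G (0 + (r : ℂ) * w) ≠ 0
      rw [zero_add, ← hu]; exact f1
    · rw [scale_logDeriv hG.diff, ← hu]
      have e1 : (r : ℂ) * logDeriv G u - (n : ℂ) = r * (logDeriv G u - L) := by
        have : (n : ℂ) = (r : ℂ) * (L : ℂ) := by
          rw [← Complex.ofReal_mul, hrL, Complex.ofReal_natCast]
        rw [this]; ring
      rw [e1, norm_mul, Complex.norm_real, Real.norm_eq_abs, abs_of_pos hr00]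
      calc r * ‖logDeriv G u - L‖ ≤ r * (ε * L) := mul_le_mul_of_nonneg_left f2 hr00.le
        _ = ε * n := by rw [← hrL]; ring
        _ ≤ η0 * n := mul_le_mul_of_nonneg_right hε1 hnpos.le
  · exact (hG.diff.comp ((differentiable_id.const_mul _).const_add _)) w
  · -- the rest of the circle
    obtain ⟨u, hu⟩ : ∃ u : ℂ, u = (x : ℂ) + r * cexp (φ * I) := ⟨_, rfl⟩
    have e1 : G (0 + (r : ℂ) * (p + cexp (φ * I))) = G u := by
      rw [zero_add, mul_add, hrp, hu]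
    have e2 : G (0 + (r : ℂ) * (p + 1)) = G ((x + r : ℝ) : ℂ) := by
      rw [zero_add, mul_add, hrp, mul_one]; push_cast; rfl
    show ‖G (0 + (r : ℂ) * (p + cexp (φ * I)))‖ ≤ Real.exp (-(δ' * n)) * ‖G (0 + (r : ℂ) * (p + 1))‖
    rw [e1, e2]
    have hure : u.re = x + r * Real.cos φ := by
      rw [hu, Complex.add_re, Complex.ofReal_re, Complex.re_ofReal_mul, Complex.exp_ofReal_mul_I_re]
    have hx0 : 0 < x := by linarith
    have hun : ‖u‖ ≤ x + r := by
      rw [hu]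
      refine (norm_add_le _ _).trans ?_
      rw [norm_mul, Complex.norm_exp_ofReal_mul_I, Complex.norm_real, Complex.norm_real,
        Real.norm_eq_abs, Real.norm_eq_abs, abs_of_pos hx0, abs_of_pos hr00, mul_one]
    have hcos := Pool.Agent.H986R2.K4.AWAux.cos_arc hs0.le (by rw [hs]; exact h1) h2
    have hG0 : 0 ≤ ‖G ((x + r : ℝ) : ℂ)‖ := norm_nonneg _
    have hδn : δ' * n ≤ δ / 2 * L := by
      calc δ' * n ≤ δ' * (r1 * L) := mul_le_mul_of_nonneg_left hn2 hδ'0.le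
        _ = δ' * r1 * L := by ring
        _ ≤ δ / 2 * L := mul_le_mul_of_nonneg_right hδ'2 hL0.le
    have hεL : ε * (R + 1) * L ≤ δ / 4 * L := mul_le_mul_of_nonneg_right hε3 hL0.le
    have hεL0 : 0 < ε * L := by positivity
    by_cases hc1 : b ≤ u.re
    · have huS : u ∈ ({w : ℂ | b ≤ w.re} ∩ Metric.closedBall 0 R) :=
        ⟨hc1, by rw [Metric.mem_closedBall, dist_zero_right]; linarith⟩
      have h3 := growF (convex_set b R) hS hxrc huS
      refine h3.trans ?_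
      rw [mul_comm]
      refine mul_le_mul_of_nonneg_right (Real.exp_le_exp.2 ?_) hG0
      have h4 : u.re - ((x + r : ℝ) : ℂ).re = r * (Real.cos φ - 1) := by
        rw [hure, Complex.ofReal_re]; ring
      have h5 : ‖u - ((x + r : ℝ) : ℂ)‖ ≤ 2 * R := by
        refine (norm_sub_le _ _).trans ?_
        rw [Complex.norm_real, Real.norm_eq_abs, abs_of_pos (by linarith : 0 < x + r)]
        linarith
      rw [h4]
      have h6 : L * (r * (Real.cos φ - 1)) = n * (Real.cos φ - 1) := by rw [← hrL]; ring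
      have h7 : (n : ℝ) * (Real.cos φ - 1) ≤ n * (-(s ^ 2 / 5)) :=
        mul_le_mul_of_nonneg_left hcos hnpos.le
      have h8 : ε * L * ‖u - ((x + r : ℝ) : ℂ)‖ ≤ ε * L * (2 * (R + 1)) := by
        refine mul_le_mul_of_nonneg_left (by linarith) hεL0.le
      have h9 : ε * L * (2 * (R + 1)) ≤ s ^ 2 / 10 * n := by
        have h10 : ε * (R + 1) * L ≤ s ^ 2 * r0 / 20 * L := mul_le_mul_of_nonneg_right hε2 hL0.le
        have h11 : s ^ 2 / 20 * (r0 * L) ≤ s ^ 2 / 20 * n :=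
          mul_le_mul_of_nonneg_left hn0 (by positivity)
        linarith
      have h12 : δ' * n ≤ s ^ 2 / 10 * n := mul_le_mul_of_nonneg_right hδ'1 hnpos.le
      rw [h6]
      linarith
    · push Not at hc1
      by_cases hc2 : |u.re| ≤ b
      · have h3 := hG.near u hc2 (by linarith)
        have h4 := growF (convex_set b R) hS hxrc hbc
        have h5 : ‖((b : ℝ) : ℂ) - ((x + r : ℝ) : ℂ)‖ ≤ R := by
          rw [← Complex.ofReal_sub, Complex.norm_real, Real.norm_eq_abs, abs_le]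
          constructor <;> linarith
        have h6 : L * (((b : ℝ) : ℂ).re - ((x + r : ℝ) : ℂ).re) + ε * L * ‖((b : ℝ) : ℂ) - ((x + r : ℝ) : ℂ)‖ ≤
            -(δ * L) + ε * R * L := by
          rw [Complex.ofReal_re, Complex.ofReal_re]
          have h7 : ε * L * ‖((b : ℝ) : ℂ) - ((x + r : ℝ) : ℂ)‖ ≤ ε * L * R :=
            mul_le_mul_of_nonneg_left h5 hεL0.le
          have h8 : L * (b - (x + r)) ≤ L * (-δ) := mul_le_mul_of_nonneg_left (by linarith) hL0.le
          linarith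
        calc ‖G u‖ ≤ ‖G b‖ * Real.exp (ε * L) := h3
          _ ≤ (‖G ((x + r : ℝ) : ℂ)‖ * Real.exp (-(δ * L) + ε * R * L)) * Real.exp (ε * L) := by
              refine mul_le_mul_of_nonneg_right (h4.trans ?_) (Real.exp_pos _).le
              exact mul_le_mul_of_nonneg_left (Real.exp_le_exp.2 h6) hG0
          _ = Real.exp (-(δ * L) + ε * R * L + ε * L) * ‖G ((x + r : ℝ) : ℂ)‖ := by
              rw [Real.exp_add (-(δ * L) + ε * R * L)]; ring
          _ ≤ Real.exp (-(δ' * n)) * ‖G ((x + r : ℝ) : ℂ)‖ := by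
              refine mul_le_mul_of_nonneg_right (Real.exp_le_exp.2 ?_) hG0
              have h13 : 0 < δ * L := by positivity
              linarith
      · have hc3 : u.re < -b := by
          by_contra hc4
          exact hc2 (abs_le.2 ⟨by linarith, by linarith⟩)
        obtain ⟨v, hv⟩ : ∃ v, v = -((starRingEnd ℂ) u) := ⟨_, rfl⟩
        have hvre : v.re = -u.re := by rw [hv]; simp
        have hvn : ‖v‖ ≤ x + r := by rw [hv, norm_neg, RCLike.norm_conj]; exact hun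
        have hvS : v ∈ ({w : ℂ | b ≤ w.re} ∩ Metric.closedBall 0 R) :=
          ⟨by show b ≤ v.re; rw [hvre]; linarith,
            by rw [Metric.mem_closedBall, dist_zero_right]; linarith⟩
        have hGv : ‖G u‖ = ‖G v‖ := by
          rw [hv, hG.symm u, RCLike.norm_conj]
        have h3 := growF (convex_set b R) hS hxrc hvS
        rw [hGv]
        refine h3.trans ?_
        rw [mul_comm]
        refine mul_le_mul_of_nonneg_right (Real.exp_le_exp.2 ?_) hG0
        have h4 : v.re - ((x + r : ℝ) : ℂ).re ≤ -(2 * δ) := by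
          rw [hvre, hure, Complex.ofReal_re]
          have h5 := mul_le_mul_of_nonneg_left (Real.neg_one_le_cos φ) hr00.le
          linarith
        have h5 : ‖v - ((x + r : ℝ) : ℂ)‖ ≤ 2 * (R + 1) := by
          refine (norm_sub_le _ _).trans ?_
          rw [Complex.norm_real, Real.norm_eq_abs, abs_of_pos (by linarith : 0 < x + r)]
          linarith
        have h7 : L * (v.re - ((x + r : ℝ) : ℂ).re) ≤ L * (-(2 * δ)) :=
          mul_le_mul_of_nonneg_left h4 hL0.le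
        have h8 : ε * L * ‖v - ((x + r : ℝ) : ℂ)‖ ≤ ε * L * (2 * (R + 1)) :=
          mul_le_mul_of_nonneg_left h5 hεL0.le
        have h13 : 0 < δ * L := by positivity
        linarith

end Pool.Agent.Q9.ZF
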