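import Pool.Agent.Q9.ZF.Nar
import Pool.Agent.H986R2.K4.Norm
import Pool.Agent.H986R2.K4.PL
import Pool.Agent.H986R2.K4.HHb

/-!
# The control of the Riemann xi function near height `t`
-/

set_option autoImplicit false

namespace Pool.Agent.Q9.ZF

open Complex Filter Topology MeasureTheory Set
open Pool.Agent.H24R2.JP (XX HH Om)
open Pool.Agent.H986R2.K4 (ZB hh pl)
open Pool.Agent.H986R2.K4.NormAux (logDeriv_XX)

theorem shift_logDeriv {G : ℂ → ℂ} (hG : Differentiable ℂ G) (c z : ℂ) :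
    logDeriv (fun z : ℂ => G (c + z)) z = logDeriv G (c + z) := by
  have hlin : HasDerivAt (fun z : ℂ => c + z) 1 z := (hasDerivAt_id z).const_add c
  have h0 : HasDerivAt (G ∘ fun z : ℂ => c + z) (deriv G (c + z) * 1) z :=
    HasDerivAt.comp (h₂ := G) z (hG (c + z)).hasDerivAt hlin
  have h1 : HasDerivAt (fun z : ℂ => G (c + z)) (deriv G (c + z) * 1) z := h0
  rw [logDeriv_apply, logDeriv_apply, h1.deriv, mul_one]

theorem ctlXX {y ε' ε R : ℝ} (hy0 : 0 ≤ y) (hZ : ZB y) (hε' : 0 < ε')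
    (hy1 : y + ε' ≤ 1) (hε : 0 < ε) (hR : 1 ≤ R) : ∃ T0 : ℝ, 2 ≤ T0 ∧ ∀ t : ℝ, T0 ≤ t →
      Ctl (fun z : ℂ => XX (I * t + z)) (Om t) (y + ε') ε R := by
  obtain ⟨K, hK1, hHH⟩ := hh
  obtain ⟨e, he⟩ : ∃ e : ℝ, e = min ε' (min (ε / 16) 1) := ⟨_, rfl⟩
  have he0 : 0 < e := by rw [he]; exact lt_min hε' (lt_min (by positivity) one_pos)
  have he1 : e ≤ ε' := by rw [he]; exact min_le_left _ _
  have he2 : e ≤ ε / 16 := by rw [he]; exact (min_le_right _ _).trans (min_le_left _ _)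
  have he3 : e ≤ 1 := by rw [he]; exact (min_le_right _ _).trans (min_le_right _ _)
  obtain ⟨b, hb⟩ : ∃ b : ℝ, b = y + ε' := ⟨_, rfl⟩
  have hb0 : 0 < b := by rw [hb]; linarith
  rw [← hb] at hy1 ⊢
  obtain ⟨t1, ht1, hz⟩ := hZ e he0
  obtain ⟨T1, hT1, hHR⟩ := hHH (R + 1) (by linarith)
  obtain ⟨C', T2, hC', hT2, hPL⟩ := (pl hh) b e 1 t1 R hb0 hy1 he0.le he3 one_pos (by linarith) hR (by
      intro t ht
      have e1 : ((1 : ℂ) / 2 + (b : ℂ) + t * I).re = 1 / 2 + b := by simp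
      have e2 : ((1 : ℂ) / 2 + (b : ℂ) + t * I).im = t := by simp
      have := (hz (1 / 2 + b + t * I) (by rw [e1, hb]; linarith) (by rw [e2]; exact ht)).2.2.2
      rw [e2] at this
      rw [one_mul]
      exact this)
  obtain ⟨M, hM⟩ : ∃ M : ℝ, M = max (4 * K / ε) (4 * (Real.log C' + K * (R + 1)) / ε) := ⟨_, rfl⟩
  obtain ⟨T0, hT0⟩ : ∃ T0 : ℝ, T0 = max (max T1 T2) (max (t1 + 2 * R) (Real.exp M)) := ⟨_, rfl⟩
  have hT01 : T1 ≤ T0 := by rw [hT0]; exact (le_max_left _ _).trans (le_max_left _ _)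
  have hT02 : T2 ≤ T0 := by rw [hT0]; exact (le_max_right _ _).trans (le_max_left _ _)
  have hT03 : t1 + 2 * R ≤ T0 := by rw [hT0]; exact (le_max_left _ _).trans (le_max_right _ _)
  have hT04 : Real.exp M ≤ T0 := by rw [hT0]; exact (le_max_right _ _).trans (le_max_right _ _)
  refine ⟨T0, by linarith, ?_⟩
  intro t ht
  have ht0 : 0 < t := by linarith
  have ht2 : 2 ≤ t := by linarith
  have hl2 : 0 < Real.log 2 := Real.log_pos (by norm_num)
  have hll : Real.log 2 ≤ Real.log t := Real.log_le_log (by norm_num) ht2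
  have hlt : 0 < Real.log t := by linarith
  have hOm : Om t = Real.log t / 2 := rfl
  have hOm0 : 0 < Om t := by rw [hOm]; linarith
  have hMt : M ≤ Real.log t := by
    rw [Real.le_log_iff_exp_le ht0]
    linarith
  have hK : K ≤ ε / 2 * Om t := by
    have h3 : 4 * K / ε ≤ Real.log t := by
      refine le_trans ?_ hMt
      rw [hM]; exact le_max_left _ _
    rw [div_le_iff₀ hε] at h3
    rw [hOm]; linarith
  have hKC : Real.log C' + K * (R + 1) ≤ ε / 2 * Om t := by
    have h3 : 4 * (Real.log C' + K * (R + 1)) / ε ≤ Real.log t := by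
      refine le_trans ?_ hMt
      rw [hM]; exact le_max_right _ _
    rw [div_le_iff₀ hε] at h3
    rw [hOm]; linarith
  have h2t : Real.log (2 * t) ≤ 2 * Real.log t := by
    rw [Real.log_mul two_ne_zero ht0.ne']
    linarith
  have key : ∀ w : ℂ, b ≤ w.re → ‖w‖ ≤ R → 0 < (I * t + w).im ∧
      riemannZeta (1 / 2 + (I * t + w)) ≠ 0 ∧
      ‖logDeriv riemannZeta (1 / 2 + (I * t + w))‖ ≤ e * Real.log (2 * t) := by
    intro w hw hwR
    have e1 : (1 / 2 + (I * t + w) : ℂ).re = 1 / 2 + w.re := by simp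
    have e2 : (1 / 2 + (I * t + w) : ℂ).im = t + w.im := by simp
    have e3 : (I * t + w : ℂ).im = t + w.im := by simp
    have h3 := (Complex.abs_im_le_norm w).trans hwR
    rw [abs_le] at h3
    obtain ⟨a1, a2, a3, a4⟩ := hz (1 / 2 + (I * t + w)) (by rw [e1]; linarith) (by rw [e2]; linarith)
    rw [e2] at a2 a3 a4
    have h4 : 0 < t + w.im := by linarith
    refine ⟨by rw [e3]; linarith, a1, a2.trans ?_⟩
    exact mul_le_mul_of_nonneg_left (Real.log_le_log h4 (by linarith)) he0.le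
  have hX : ∀ p : ℂ, 0 < p.im → XX p = HH p * riemannZeta (1 / 2 + p) :=
    Pool.Agent.H24R2.JP.ZetaTask.part1
  have hXd := Pool.Agent.H24R2.JP.B1h.XX_diff
  constructor
  · exact hXd.comp (differentiable_id.const_add _)
  · intro z
    have e : I * t + (-((starRingEnd ℂ) z)) = -((starRingEnd ℂ) (I * t + z)) := by
      rw [map_add, map_mul, Complex.conj_I, Complex.conj_ofReal]
      ring
    show XX (I * t + (-((starRingEnd ℂ) z))) = (starRingEnd ℂ) (XX (I * t + z))
    rw [e, Pool.Agent.H24R2.DZ.XBAux.xsymm]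
  · intro u hu1 hu2
    obtain ⟨k1, k2, k3⟩ := key u hu1 hu2
    obtain ⟨g1, g2, g3, -, -⟩ := hHR t u (by linarith) (by linarith)
    constructor
    · show XX (I * t + u) ≠ 0
      rw [hX _ k1]
      exact mul_ne_zero g2 k2
    · rw [shift_logDeriv hXd, logDeriv_XX k1 g1 g2 k2]
      have e2 := norm_add_le (logDeriv HH (I * t + u) - (Om t : ℂ))
        (logDeriv riemannZeta (1 / 2 + (I * t + u)))
      have e1 : logDeriv HH (I * t + u) + logDeriv riemannZeta (1 / 2 + (I * t + u)) - (Om t : ℂ) =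
          (logDeriv HH (I * t + u) - (Om t : ℂ)) + logDeriv riemannZeta (1 / 2 + (I * t + u)) := by ring
      rw [e1]
      have e3 : e * Real.log (2 * t) ≤ ε / 4 * Om t := by
        have h3 : e * Real.log (2 * t) ≤ e * (2 * Real.log t) :=
          mul_le_mul_of_nonneg_left h2t he0.le
        have h4 : e * (2 * Real.log t) ≤ ε / 16 * (2 * Real.log t) :=
          mul_le_mul_of_nonneg_right he2 (by linarith)
        rw [hOm]; linarith
      have h5 : 0 < ε * Om t := by positivity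
      linarith
  · intro u hu1 hu2
    show ‖XX (I * t + u)‖ ≤ ‖XX (I * t + (b : ℂ))‖ * Real.exp (ε * Om t)
    have hH0 : 0 < ‖HH (I * t)‖ := by
      have := (hHR t 0 (by linarith) (by rw [norm_zero]; linarith)).2.1
      rw [add_zero] at this
      exact norm_pos_iff.2 this
    have h3 := hPL t u (by linarith) hu1 ((Complex.abs_im_le_norm _).trans hu2)
    -- lower bound at `b`
    have hbn : ‖((b : ℝ) : ℂ)‖ ≤ R := by
      rw [Complex.norm_real, Real.norm_eq_abs, abs_of_pos hb0]; linarith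
    obtain ⟨k1, k2, -⟩ := key (b : ℂ) (by rw [Complex.ofReal_re]) hbn
    obtain ⟨-, -, -, g4, -⟩ := hHR t (b : ℂ) (by linarith) (by linarith)
    rw [Complex.ofReal_re] at g4
    have e1 : (1 / 2 + (I * t + (b : ℂ)) : ℂ).re = 1 / 2 + b := by simp
    have e2 : (1 / 2 + (I * t + (b : ℂ)) : ℂ).im = t := by simp
    have h4 := (hz (1 / 2 + (I * t + (b : ℂ))) (by rw [e1, hb]; linarith) (by rw [e2]; linarith)).2.2.1
    rw [e2] at h4
    have hlow : Real.exp (Om t * b - K * (R + 1)) * ‖HH (I * t)‖ * t ^ (-e) ≤ ‖XX (I * t + (b : ℂ))‖ := by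
      rw [hX _ k1, norm_mul]
      exact mul_le_mul g4 h4 (Real.rpow_nonneg ht0.le _) (norm_nonneg _)
    refine h3.trans (le_trans ?_ (mul_le_mul_of_nonneg_right hlow (Real.exp_pos _).le))
    have c1 : t ^ e = Real.exp (2 * e * Om t) := by
      rw [Real.rpow_def_of_pos ht0, hOm]
      congr 1; ring
    have c2 : t ^ (-e) = Real.exp (-(2 * e * Om t)) := by
      rw [Real.rpow_def_of_pos ht0, hOm]
      congr 1; ring
    have c3 : C' = Real.exp (Real.log C') := (Real.exp_log hC').symm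
    have c4 : C' * t ^ e * (Real.exp (b * Om t) * ‖HH (I * t)‖) =
        Real.exp (Real.log C' + 2 * e * Om t + b * Om t) * ‖HH (I * t)‖ := by
      rw [Real.exp_add, Real.exp_add, ← c3, c1]; ring
    have c5 : Real.exp (Om t * b - K * (R + 1)) * ‖HH (I * t)‖ * t ^ (-e) * Real.exp (ε * Om t) =
        Real.exp ((Om t * b - K * (R + 1)) + (-(2 * e * Om t)) + ε * Om t) * ‖HH (I * t)‖ := by
      rw [Real.exp_add, Real.exp_add, c2]; ring
    rw [c4, c5]
    apply mul_le_mul_of_nonneg_right _ hH0.le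
    apply Real.exp_le_exp.2
    have c6 : e * Om t ≤ ε / 16 * Om t := mul_le_mul_of_nonneg_right he2 hOm0.le
    have c7 : 0 < ε * Om t := by positivity
    linarith

end Pool.Agent.Q9.ZF
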